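import Mathlib

set_option autoImplicit false

/-!
# Arcs of a discrete circle
-/

namespace Pool.Agent.LCR

/-- The arc `{s, s + 1, ..., s + l}` of the circle `ZMod N`. -/
def arc {N : ℕ} (s : ZMod N) (l : ℕ) : Set (ZMod N) := {x | ∃ i : ℕ, i ≤ l ∧ x = s + i}

/-- An arc which meets an arc `X = {s, ..., s + l}` and is not contained in `X` contains `s` or
`s + l`. -/
theorem arc_endpoint {N : ℕ} {s s' : ZMod N} {l l' : ℕ}
    (h1 : ∃ x, x ∈ arc s l ∧ x ∈ arc s' l') (h2 : ¬ arc s' l' ⊆ arc s l) :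
    s ∈ arc s' l' ∨ s + l ∈ arc s' l' := by
  classical
  obtain ⟨x, hx, i, hi, rfl⟩ := h1
  rw [Set.not_subset] at h2
  obtain ⟨y, ⟨j, hj, rfl⟩, hy⟩ := h2
  -- two consecutive points of the second arc, one in the first arc and one not
  rcases le_total i j with hij | hij
  · -- the first index after `i` outside the first arc
    have hex : ∃ k, i + k ≤ j ∧ s' + ((i + k : ℕ) : ZMod N) ∉ arc s l :=
      ⟨j - i, by omega, by rw [show i + (j - i) = j by omega]; exact hy⟩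
    have hk := Nat.find_spec hex
    set k := Nat.find hex with hkd
    have hk0 : k ≠ 0 := by
      intro h0
      rw [h0, Nat.add_zero] at hk
      exact hk.2 hx
    obtain ⟨k', hk'⟩ : ∃ k', k = k' + 1 := ⟨k - 1, by omega⟩
    have hmin : s' + ((i + k' : ℕ) : ZMod N) ∈ arc s l := by
      by_contra h
      exact Nat.find_min hex (show k' < Nat.find hex by omega) ⟨by omega, h⟩
    obtain ⟨r, hr, hr'⟩ := hmin
    right
    refine ⟨i + k', by omega, ?_⟩
    rw [hr']
    by_cases hrl : r = l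
    · rw [hrl]
    · exfalso
      apply hk.2
      refine ⟨r + 1, by omega, ?_⟩
      rw [hk', show i + (k' + 1) = (i + k') + 1 by omega, Nat.cast_add, Nat.cast_one, ← add_assoc,
        hr']
      push_cast
      ring
  · -- the first index before `i` outside the first arc
    have hex : ∃ k, j + k ≤ i ∧ s' + ((i - k : ℕ) : ZMod N) ∉ arc s l :=
      ⟨i - j, by omega, by rw [show i - (i - j) = j by omega]; exact hy⟩
    have hk := Nat.find_spec hex
    set k := Nat.find hex with hkd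
    have hk0 : k ≠ 0 := by
      intro h0
      rw [h0, Nat.sub_zero] at hk
      exact hk.2 hx
    obtain ⟨k', hk'⟩ : ∃ k', k = k' + 1 := ⟨k - 1, by omega⟩
    have hmin : s' + ((i - k' : ℕ) : ZMod N) ∈ arc s l := by
      by_contra h
      exact Nat.find_min hex (show k' < Nat.find hex by omega) ⟨by omega, h⟩
    obtain ⟨r, hr, hr'⟩ := hmin
    left
    refine ⟨i - k', by omega, ?_⟩
    rw [hr']
    by_cases hrl : r = 0
    · rw [hrl]; simp
    · exfalso
      apply hk.2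
      obtain ⟨r', rfl⟩ : ∃ r', r = r' + 1 := ⟨r - 1, by omega⟩
      refine ⟨r', by omega, ?_⟩
      have e : i - k' = (i - k) + 1 := by omega
      rw [e] at hr'
      push_cast at hr' ⊢
      have : s' + ((i - k : ℕ) : ZMod N) + 1 = s + (r' : ZMod N) + 1 := by
        rw [add_assoc, hr', add_assoc]
      exact add_right_cancel this

/-- In an intersection graph of arcs with two comparable arcs there is a dominated vertex without
three pairwise nonadjacent neighbours. -/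
theorem arc_dominated {V : Type} [Fintype V] {G : SimpleGraph V} {N : ℕ} [NeZero N]
    {s : V → ZMod N} {l : V → ℕ}
    (hG : ∀ u v, G.Adj u v ↔ u ≠ v ∧ ∃ x, x ∈ arc (s u) (l u) ∧ x ∈ arc (s v) (l v))
    (hc : ∃ u v, u ≠ v ∧ arc (s u) (l u) ⊆ arc (s v) (l v)) :
    ∃ w a, G.Adj w a ∧ (∀ u, G.Adj w u → u ≠ a → G.Adj a u) ∧
      ∀ x y z, G.Adj w x → G.Adj w y → G.Adj w z → x ≠ y → x ≠ z → y ≠ z →
        G.Adj x y ∨ G.Adj x z ∨ G.Adj y z := by
  classical
  let T : Finset V := Finset.univ.filter fun u => ∃ v, u ≠ v ∧ arc (s u) (l u) ⊆ arc (s v) (l v)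
  have hT : T.Nonempty := by
    obtain ⟨u, v, h⟩ := hc
    exact ⟨u, Finset.mem_filter.mpr ⟨Finset.mem_univ _, v, h⟩⟩
  obtain ⟨w, hw, hmin⟩ := Finset.exists_min_image T (fun u => (arc (s u) (l u)).ncard) hT
  obtain ⟨a, hwa, hsub⟩ := (Finset.mem_filter.mp hw).2
  have hself : ∀ v, s v ∈ arc (s v) (l v) := fun v => ⟨0, Nat.zero_le _, by simp⟩
  have hend : ∀ v, G.Adj w v → s w ∈ arc (s v) (l v) ∨ s w + l w ∈ arc (s v) (l v) := by
    intro v hv
    rw [hG] at hv
    by_cases h : arc (s v) (l v) ⊆ arc (s w) (l w)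
    · have hvT : v ∈ T := Finset.mem_filter.mpr ⟨Finset.mem_univ _, w, hv.1.symm, h⟩
      have hle := hmin v hvT
      have heq : arc (s v) (l v) = arc (s w) (l w) :=
        Set.eq_of_subset_of_ncard_le h hle (Set.toFinite _)
      left
      rw [heq]
      exact hself w
    · exact arc_endpoint hv.2 h
  refine ⟨w, a, ?_, ?_, ?_⟩
  · rw [hG]
    exact ⟨hwa, s w, hself w, hsub (hself w)⟩
  · intro u hu hua
    rw [hG] at hu ⊢
    obtain ⟨_, x, hx1, hx2⟩ := hu
    exact ⟨hua.symm, x, hsub hx1, hx2⟩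
  · intro x y z hx hy hz hxy hxz hyz
    rw [hG x y, hG x z, hG y z]
    rcases hend x hx with h1 | h1 <;> rcases hend y hy with h2 | h2 <;>
      rcases hend z hz with h3 | h3
    · exact Or.inl ⟨hxy, _, h1, h2⟩
    · exact Or.inl ⟨hxy, _, h1, h2⟩
    · exact Or.inr (Or.inl ⟨hxz, _, h1, h3⟩)
    · exact Or.inr (Or.inr ⟨hyz, _, h2, h3⟩)
    · exact Or.inr (Or.inr ⟨hyz, _, h2, h3⟩)
    · exact Or.inr (Or.inl ⟨hxz, _, h1, h3⟩)
    · exact Or.inl ⟨hxy, _, h1, h2⟩
    · exact Or.inl ⟨hxy, _, h1, h2⟩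

/-- If, in an intersection graph of arcs of a circle, a vertex is dominated by an adjacent vertex,
then some dominated vertex has no three pairwise nonadjacent neighbours. -/
theorem arc_dominated' {V : Type} [Fintype V] {G : SimpleGraph V} {N : ℕ} [NeZero N]
    {s : V → ZMod N} {l : V → ℕ}
    (hG : ∀ u v, G.Adj u v ↔ u ≠ v ∧ ∃ x, x ∈ arc (s u) (l u) ∧ x ∈ arc (s v) (l v))
    (hd : ∃ w a, G.Adj w a ∧ ∀ u, G.Adj w u → u ≠ a → G.Adj a u) :
    ∃ w a, G.Adj w a ∧ (∀ u, G.Adj w u → u ≠ a → G.Adj a u) ∧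
      ∀ x y z, G.Adj w x → G.Adj w y → G.Adj w z → x ≠ y → x ≠ z → y ≠ z →
        G.Adj x y ∨ G.Adj x z ∨ G.Adj y z := by
  by_cases hc : ∃ u v, u ≠ v ∧ arc (s u) (l u) ⊆ arc (s v) (l v)
  · exact arc_dominated hG hc
  · obtain ⟨w, a, hwa, hdom⟩ := hd
    refine ⟨w, a, hwa, hdom, ?_⟩
    have hend : ∀ v, G.Adj w v → s w ∈ arc (s v) (l v) ∨ s w + l w ∈ arc (s v) (l v) := by
      intro v hv
      rw [hG] at hv
      exact arc_endpoint hv.2 fun h => hc ⟨v, w, hv.1.symm, h⟩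
    intro x y z hx hy hz hxy hxz hyz
    rw [hG x y, hG x z, hG y z]
    rcases hend x hx with h1 | h1 <;> rcases hend y hy with h2 | h2 <;>
      rcases hend z hz with h3 | h3
    · exact Or.inl ⟨hxy, _, h1, h2⟩
    · exact Or.inl ⟨hxy, _, h1, h2⟩
    · exact Or.inr (Or.inl ⟨hxz, _, h1, h3⟩)
    · exact Or.inr (Or.inr ⟨hyz, _, h2, h3⟩)
    · exact Or.inr (Or.inr ⟨hyz, _, h2, h3⟩)
    · exact Or.inr (Or.inl ⟨hxz, _, h1, h3⟩)
    · exact Or.inl ⟨hxy, _, h1, h2⟩
    · exact Or.inl ⟨hxy, _, h1, h2⟩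

end Pool.Agent.LCR
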