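import Mathlib

set_option autoImplicit false

/-!
# Distance levels in connected claw-free graphs without asteroidal triples
-/

namespace Pool.Agent.LCR

variable {V : Type} {G : SimpleGraph V}

/-- Some walk from `a` to `b` avoids `c` and the neighbours of `c`. -/
def Avoid (G : SimpleGraph V) (c a b : V) : Prop :=
  ∃ p : G.Walk a b, ∀ v ∈ p.support, v ≠ c ∧ ¬ G.Adj c v

theorem Avoid.symm {c a b : V} (h : Avoid G c a b) : Avoid G c b a := by
  obtain ⟨p, hp⟩ := h
  exact ⟨p.reverse, fun v hv => hp v (by simpa using hv)⟩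

theorem Avoid.trans {c a b d : V} (h : Avoid G c a b) (h' : Avoid G c b d) : Avoid G c a d := by
  obtain ⟨p, hp⟩ := h
  obtain ⟨q, hq⟩ := h'
  refine ⟨p.append q, fun v hv => ?_⟩
  rw [SimpleGraph.Walk.mem_support_append_iff] at hv
  rcases hv with hv | hv
  · exact hp v hv
  · exact hq v hv

/-- A neighbour one step closer to `x`. -/
theorem closer (hc : G.Connected) {x v : V} {n : ℕ} (h : G.dist x v = n + 1) :
    ∃ u, G.Adj v u ∧ G.dist x u = n := by
  obtain ⟨p, hp⟩ := hc.exists_walk_length_eq_dist v x
  have h' : G.dist v x = n + 1 := by rw [SimpleGraph.dist_comm]; exact h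
  rw [h'] at hp
  cases p with
  | nil => simp at hp
  | @cons _ u _ hvu q =>
    rw [SimpleGraph.Walk.length_cons] at hp
    refine ⟨u, hvu, ?_⟩
    have h1 : G.dist x u ≤ n := by
      rw [SimpleGraph.dist_comm]
      exact (SimpleGraph.dist_le q).trans (by omega)
    have h2 : G.dist x v ≤ G.dist x u + G.dist u v := hc.dist_triangle
    have h3 : G.dist u v = 1 := SimpleGraph.dist_eq_one_iff_adj.mpr hvu.symm
    omega

/-- A shortest walk, with the levels of its vertices. -/
theorem geo (hc : G.Connected) (x : V) (n : ℕ) : ∀ v, G.dist x v = n →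
    ∃ p : G.Walk x v, ∀ w ∈ p.support, w = v ∨
      (G.dist x w < n ∧ (G.dist x w + 1 = n → G.Adj w v)) := by
  induction n with
  | zero =>
    intro v hv
    have hxv : x = v := hc.dist_eq_zero_iff.mp hv
    subst hxv
    refine ⟨SimpleGraph.Walk.nil, fun w hw => Or.inl ?_⟩
    simpa using hw
  | succ n ih =>
    intro v hv
    obtain ⟨u, hvu, hu⟩ := closer hc hv
    obtain ⟨p, hp⟩ := ih u hu
    refine ⟨p.append (SimpleGraph.Walk.cons hvu.symm SimpleGraph.Walk.nil), fun w hw => ?_⟩
    rw [SimpleGraph.Walk.mem_support_append_iff] at hw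
    rcases hw with hw | hw
    · right
      rcases hp w hw with rfl | ⟨h1, h2⟩
      · exact ⟨by omega, fun _ => hvu.symm⟩
      · exact ⟨by omega, fun h => by omega⟩
    · simp only [SimpleGraph.Walk.support_cons, SimpleGraph.Walk.support_nil, List.mem_cons,
        List.not_mem_nil, or_false] at hw
      rcases hw with rfl | rfl
      · exact Or.inr ⟨by omega, fun _ => hvu.symm⟩
      · exact Or.inl rfl

/-- The distance levels from an end of a longest shortest path are cliques, apart from the
first. -/
theorem level_clique (hc : G.Connected)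
    (hclaw : ∀ z x y w, G.Adj z x → G.Adj z y → G.Adj z w → x ≠ y → x ≠ w → y ≠ w →
      G.Adj x y ∨ G.Adj x w ∨ G.Adj y w)
    (hat : ∀ a b c, Avoid G c a b → Avoid G a b c → ¬ Avoid G b a c)
    {x y : V} (hmax : ∀ u v, G.dist u v ≤ G.dist x y) (hD : 2 ≤ G.dist x y)
    {i : ℕ} (hi : 2 ≤ i) {a b : V} (ha : G.dist x a = i) (hb : G.dist x b = i) (hab : a ≠ b) :
    G.Adj a b := by
  by_contra hnab
  have hdist : ∀ u v, G.Adj u v → G.dist x v ≤ G.dist x u + 1 := by
    intro u v huv
    have h2 : G.dist x v ≤ G.dist x u + G.dist u v := hc.dist_triangle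
    rw [SimpleGraph.dist_eq_one_iff_adj.mpr huv] at h2
    exact h2
  -- no common neighbour in the level below
  have hcom : ∀ z, G.dist x z + 1 = i → G.Adj z a → G.Adj z b → False := by
    intro z hz hza hzb
    obtain ⟨m, hm⟩ : ∃ m, G.dist x z = m + 1 := ⟨G.dist x z - 1, by omega⟩
    obtain ⟨z', hzz', hz'⟩ := closer hc hm
    rcases hclaw z a b z' hza hzb hzz' hab (by rintro rfl; omega) (by rintro rfl; omega)
      with h | h | h
    · exact hnab h
    · have := hdist z' a h.symm; omega
    · have := hdist z' b h.symm; omega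
  have hun : ∀ a b, G.dist x a = i → G.dist x b = i → a ≠ b → ¬ G.Adj a b →
      (∀ z, G.dist x z + 1 = i → G.Adj z a → G.Adj z b → False) → Avoid G b x a := by
    intro a b ha hb hab hnab hcom
    obtain ⟨p, hp⟩ := geo hc x i a ha
    refine ⟨p, fun v hv => ?_⟩
    rcases hp v hv with rfl | ⟨h1, h2⟩
    · exact ⟨hab, fun h => hnab h.symm⟩
    · refine ⟨by rintro rfl; omega, fun h => ?_⟩
      have h3 := hdist v b h.symm
      exact hcom v (by omega) (h2 (by omega)) h.symm
  have h1 : Avoid G b x a := hun a b ha hb hab hnab hcom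
  have h2 : Avoid G a x b := hun b a hb ha hab.symm (fun h => hnab h.symm)
    fun z hz h h' => hcom z hz h' h
  have h3 : ¬ Avoid G x a b := fun h => hat a b x h h2.symm h1.symm
  -- one of `a` and `b` is separated from `y`
  have key : ∀ a, G.dist x a = i → Avoid G x a y := by
    intro a ha
    by_contra hn
    obtain ⟨p, hp⟩ := hc.exists_walk_length_eq_dist a y
    obtain ⟨v, hv, hxv⟩ : ∃ v ∈ p.support, v = x ∨ G.Adj x v := by
      by_contra hcon
      push Not at hcon
      exact hn ⟨p, hcon⟩
    classical
    have e := congrArg SimpleGraph.Walk.length (p.take_spec hv)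
    rw [SimpleGraph.Walk.length_append] at e
    have h4 : G.dist a v ≤ (p.takeUntil v hv).length := SimpleGraph.dist_le _
    have h5 : G.dist v y ≤ (p.dropUntil v hv).length := SimpleGraph.dist_le _
    have h6 : G.dist x v ≤ 1 := by
      rcases hxv with rfl | h
      · rw [SimpleGraph.dist_self]; omega
      · rw [SimpleGraph.dist_eq_one_iff_adj.mpr h]
    have h7 : G.dist x a ≤ G.dist x v + G.dist v a := hc.dist_triangle
    have h8 : G.dist x y ≤ G.dist x v + G.dist v y := hc.dist_triangle
    have h9 := hmax a y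
    rw [SimpleGraph.dist_comm (u := v) (v := a)] at h7
    have hxv' : G.Adj x v := SimpleGraph.dist_eq_one_iff_adj.mp (by omega)
    have hva : G.Adj a v := SimpleGraph.dist_eq_one_iff_adj.mp (by omega)
    obtain ⟨m, hm⟩ : ∃ m, G.dist x y = m + 2 := ⟨G.dist x y - 2, by omega⟩
    have hvy : G.dist y v = m + 1 := by
      rw [SimpleGraph.dist_comm]; omega
    obtain ⟨z, hvz, hz⟩ := closer hc hvy
    have hxz : 2 ≤ G.dist x z := by
      have : G.dist x y ≤ G.dist x z + G.dist z y := hc.dist_triangle
      rw [SimpleGraph.dist_comm (u := z) (v := y)] at this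
      omega
    have hxz1 : x ≠ z := by rintro rfl; rw [SimpleGraph.dist_self] at hxz; omega
    have hxz2 : ¬ G.Adj x z := by
      intro h
      rw [SimpleGraph.dist_eq_one_iff_adj.mpr h] at hxz
      omega
    have hxa1 : x ≠ a := by rintro rfl; rw [SimpleGraph.dist_self] at ha; omega
    have hxa2 : ¬ G.Adj x a := by
      intro h
      rw [SimpleGraph.dist_eq_one_iff_adj.mpr h] at ha
      omega
    have hzy : Avoid G x z y := by
      obtain ⟨q, hq⟩ := geo hc y m z hz
      refine ⟨q.reverse, fun w hw => ?_⟩
      have hw' : w ∈ q.support := by simpa using hw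
      have h10 : G.dist y w ≤ m := by
        rcases hq w hw' with rfl | ⟨h, _⟩
        · omega
        · omega
      have h11 : G.dist x y ≤ G.dist x w + G.dist w y := hc.dist_triangle
      rw [SimpleGraph.dist_comm (u := w) (v := y)] at h11
      constructor
      · rintro rfl
        rw [SimpleGraph.dist_self] at h11
        omega
      · intro h
        rw [SimpleGraph.dist_eq_one_iff_adj.mpr h] at h11
        omega
    have haz : a ≠ z := by
      rintro rfl
      exact hn hzy
    have haz2 : ¬ G.Adj a z := by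
      intro h
      apply hn
      refine Avoid.trans (b := z) ⟨SimpleGraph.Walk.cons h SimpleGraph.Walk.nil, fun w hw => ?_⟩
        hzy
      simp only [SimpleGraph.Walk.support_cons, SimpleGraph.Walk.support_nil, List.mem_cons,
        List.not_mem_nil, or_false] at hw
      rcases hw with rfl | rfl
      · exact ⟨hxa1.symm, hxa2⟩
      · exact ⟨hxz1.symm, hxz2⟩
    rcases hclaw v x a z hxv'.symm hva.symm hvz hxa1 hxz1 haz with h | h | h
    · exact hxa2 h
    · exact hxz2 h
    · exact haz2 h
  exact h3 ((key a ha).trans (key b hb).symm)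

end Pool.Agent.LCR
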