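import Mathlib

set_option autoImplicit false

/-!
# A Chebyshev inequality for the deletion of one element
-/

namespace Pool.Agent.LCR

theorem sum_erase {α : Type} [DecidableEq α] (P : Finset α) (g : Finset α → ℝ) :
    ∑ p ∈ P, ∑ Q ∈ (P.erase p).powerset, g Q =
      ∑ Q ∈ P.powerset, ((P.card : ℝ) - Q.card) * g Q := by
  have h : ∀ p ∈ P, ∑ Q ∈ (P.erase p).powerset, g Q =
      ∑ Q ∈ P.powerset, if p ∈ P \ Q then g Q else 0 := by
    intro p hp
    rw [← Finset.sum_filter]
    refine Finset.sum_congr ?_ fun _ _ => rfl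
    ext Q
    rw [Finset.mem_powerset, Finset.mem_filter, Finset.mem_powerset, Finset.mem_sdiff]
    constructor
    · intro h
      exact ⟨h.trans (Finset.erase_subset _ _), hp, fun hq => Finset.notMem_erase p P (h hq)⟩
    · rintro ⟨h1, _, h2⟩ x hx
      rw [Finset.mem_erase]
      exact ⟨fun h => h2 (h ▸ hx), h1 hx⟩
  rw [Finset.sum_congr rfl h, Finset.sum_comm]
  refine Finset.sum_congr rfl fun Q hQ => ?_
  rw [Finset.mem_powerset] at hQ
  rw [Finset.sum_ite_mem, Finset.inter_eq_right.mpr Finset.sdiff_subset, Finset.sum_const,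
    nsmul_eq_mul, Finset.card_sdiff_of_subset hQ, Nat.cast_sub (Finset.card_le_card hQ)]

theorem cheb {α : Type} [DecidableEq α] {P : Finset α} (hP : P.Nonempty)
    (x : Finset α → ℝ) (H : ℕ → ℝ) (hx : ∀ Q, 0 ≤ x Q) (hx0 : 0 < x ∅)
    (hx1 : ∀ p ∈ P, 0 < x {p}) (hH : StrictMono H)
    (hpos : ∀ p ∈ P, 0 < ∑ Q ∈ (P.erase p).powerset, x Q) :
    ∃ p ∈ P, (∑ Q ∈ (P.erase p).powerset, x Q * H Q.card) /
        (∑ Q ∈ (P.erase p).powerset, x Q) <
      (∑ Q ∈ P.powerset, x Q * H Q.card) / (∑ Q ∈ P.powerset, x Q) := by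
  by_contra hcon
  push Not at hcon
  have hA : 0 < ∑ Q ∈ P.powerset, x Q :=
    Finset.sum_pos' (fun Q _ => hx Q) ⟨∅, Finset.empty_mem_powerset _, hx0⟩
  have h1 : ∀ p ∈ P, (∑ Q ∈ P.powerset, x Q * H Q.card) * (∑ Q ∈ (P.erase p).powerset, x Q) ≤
      (∑ Q ∈ (P.erase p).powerset, x Q * H Q.card) * (∑ Q ∈ P.powerset, x Q) := by
    intro p hp
    have := hcon p hp
    rw [div_le_div_iff₀ hA (hpos p hp)] at this
    exact this
  have h2 := Finset.sum_le_sum h1
  rw [← Finset.mul_sum, ← Finset.sum_mul, sum_erase, sum_erase] at h2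
  set A := ∑ Q ∈ P.powerset, x Q with hAd
  set B := ∑ Q ∈ P.powerset, x Q * H Q.card with hB
  set C := ∑ Q ∈ P.powerset, (Q.card : ℝ) * x Q with hC
  set D := ∑ Q ∈ P.powerset, (Q.card : ℝ) * (x Q * H Q.card) with hD
  have e1 : ∑ Q ∈ P.powerset, ((P.card : ℝ) - Q.card) * x Q = P.card * A - C := by
    rw [hAd, hC, Finset.mul_sum, ← Finset.sum_sub_distrib]
    exact Finset.sum_congr rfl fun Q _ => by ring
  have e2 : ∑ Q ∈ P.powerset, ((P.card : ℝ) - Q.card) * (x Q * H Q.card) = P.card * B - D := by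
    rw [hB, hD, Finset.mul_sum, ← Finset.sum_sub_distrib]
    exact Finset.sum_congr rfl fun Q _ => by ring
  rw [e1, e2] at h2
  have h3 : A * D ≤ B * C := by nlinarith [h2]
  have h4 : ∑ Q ∈ P.powerset, ∑ R ∈ P.powerset,
      x Q * x R * (((Q.card : ℝ) - R.card) * (H Q.card - H R.card)) = 2 * (A * D - B * C) := by
    have h5 : ∀ Q ∈ P.powerset, ∑ R ∈ P.powerset,
        x Q * x R * (((Q.card : ℝ) - R.card) * (H Q.card - H R.card)) =
        (Q.card : ℝ) * (x Q * H Q.card) * A - (Q.card : ℝ) * x Q * B -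
          x Q * H Q.card * C + x Q * D := by
      intro Q _
      rw [hAd, hB, hC, hD, Finset.mul_sum, Finset.mul_sum, Finset.mul_sum, Finset.mul_sum,
        ← Finset.sum_sub_distrib, ← Finset.sum_sub_distrib, ← Finset.sum_add_distrib]
      exact Finset.sum_congr rfl fun R _ => by ring
    rw [Finset.sum_congr rfl h5, Finset.sum_add_distrib, Finset.sum_sub_distrib,
      Finset.sum_sub_distrib, ← Finset.sum_mul, ← Finset.sum_mul, ← Finset.sum_mul,
      ← Finset.sum_mul, ← hAd, ← hB, ← hC, ← hD]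
    ring
  have hterm : ∀ Q R : Finset α,
      0 ≤ x Q * x R * (((Q.card : ℝ) - R.card) * (H Q.card - H R.card)) := by
    intro Q R
    refine mul_nonneg (mul_nonneg (hx Q) (hx R)) ?_
    rcases le_total Q.card R.card with h | h
    · refine mul_nonneg_of_nonpos_of_nonpos ?_ ?_
      · have : (Q.card : ℝ) ≤ R.card := by exact_mod_cast h
        linarith
      · have := hH.monotone h
        linarith
    · refine mul_nonneg ?_ ?_
      · have : (R.card : ℝ) ≤ Q.card := by exact_mod_cast h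
        linarith
      · have := hH.monotone h
        linarith
  obtain ⟨p, hp⟩ := hP
  have h6 : 0 < ∑ Q ∈ P.powerset, ∑ R ∈ P.powerset,
      x Q * x R * (((Q.card : ℝ) - R.card) * (H Q.card - H R.card)) := by
    refine Finset.sum_pos' (fun Q _ => Finset.sum_nonneg fun R _ => hterm Q R)
      ⟨∅, Finset.empty_mem_powerset _, ?_⟩
    refine Finset.sum_pos' (fun R _ => hterm ∅ R) ⟨{p}, ?_, ?_⟩
    · rw [Finset.mem_powerset, Finset.singleton_subset_iff]; exact hp
    · have h7 := hH (show 0 < 1 by norm_num)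
      have h8 := hx1 p hp
      simp only [Finset.card_empty, Finset.card_singleton]
      refine mul_pos (mul_pos hx0 h8) ?_
      push_cast
      nlinarith
  linarith

end Pool.Agent.LCR
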