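import Pool.Agent.LCR.MT
import Pool.Agent.LCR.Cheb

set_option autoImplicit false
set_option linter.unusedSectionVars false

/-!
# Two cliques: the logarithmic derivative at `-1`
-/

open Polynomial

namespace Pool.Agent.LCR

open Pool.Agent.BCF Pool.Agent.SCP

/-- The product `(X - m) (X - m - 1) ... (X - m - j + 1)`. -/
noncomputable def dd (m j : ℕ) : ℝ[X] := ∏ i ∈ Finset.range j, (X - C ((m : ℝ) + i))

/-- The product `(m + 1) ... (m + j)`. -/
noncomputable def ff (m j : ℕ) : ℝ := ∏ i ∈ Finset.range j, ((m : ℝ) + i + 1)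

/-- The sums `1 / (m + 1) + ... + 1 / (m + j)`. -/
noncomputable def hh (m j : ℕ) : ℝ := ∑ i ∈ Finset.range j, 1 / ((m : ℝ) + i + 1)

theorem hh_strict (m : ℕ) : StrictMono (hh m) := by
  apply strictMono_nat_of_lt_succ
  intro n
  unfold hh
  rw [Finset.sum_range_succ]
  have : (0 : ℝ) < 1 / ((m : ℝ) + n + 1) := by positivity
  linarith

theorem ff_pos (m j : ℕ) : 0 < ff m j := Finset.prod_pos fun i _ => by positivity

theorem dd_eval (m j : ℕ) : (dd m j).eval (-1) = (-1) ^ j * ff m j := by
  induction j with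
  | zero => simp [dd, ff]
  | succ j ih =>
    unfold dd ff at ih ⊢
    rw [Finset.prod_range_succ, eval_mul, ih, eval_sub, eval_X, eval_C, Finset.prod_range_succ]
    ring

theorem dd_der (m j : ℕ) : (derivative (dd m j)).eval (-1) =
    -((-1) ^ j * ff m j * hh m j) := by
  induction j with
  | zero => simp [dd, hh]
  | succ j ih =>
    have e := dd_eval m j
    have e3 : dd m (j + 1) = dd m j * (X - C ((m : ℝ) + j)) := by
      unfold dd
      rw [Finset.prod_range_succ]
    have e4 : ff m (j + 1) = ff m j * ((m : ℝ) + j + 1) := by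
      unfold ff
      rw [Finset.prod_range_succ]
    rw [e3, derivative_mul, eval_add, eval_mul, eval_mul, ih, e, derivative_sub, derivative_X,
      derivative_C, sub_zero, eval_one, eval_sub, eval_X, eval_C, e4]
    unfold hh
    rw [Finset.sum_range_succ]
    have : (m : ℝ) + j + 1 ≠ 0 := by positivity
    field_simp
    ring

variable {V : Type} [Fintype V] [DecidableEq V]

open Classical in
/-- The weight of a set of pairs. -/
noncomputable def xx (m : ℕ) (P : Finset (V × V)) : ℝ := if Mat P then 1 / ff m P.card else 0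

theorem xx_nonneg (m : ℕ) (P : Finset (V × V)) : 0 ≤ xx m P := by
  unfold xx
  have := ff_pos m P.card
  split_ifs
  · positivity
  · exact le_refl _

theorem xx_empty (m : ℕ) : xx m (∅ : Finset (V × V)) = 1 := by
  unfold xx
  rw [if_pos]
  · simp [ff]
  · intro p hp
    exact absurd hp (Finset.notMem_empty _)

theorem xx_single (m : ℕ) (p : V × V) : 0 < xx m {p} := by
  unfold xx
  have := ff_pos m 1
  rw [if_pos]
  · rw [Finset.card_singleton]
    positivity
  · intro q hq r hr hne
    rw [Finset.mem_singleton] at hq hr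
    exact absurd (hq.trans hr.symm) hne

theorem xx_pos (m : ℕ) (P : Finset (V × V)) : 0 < ∑ Q ∈ P.powerset, xx m Q :=
  Finset.sum_pos' (fun Q _ => xx_nonneg m Q)
    ⟨∅, Finset.empty_mem_powerset _, by rw [xx_empty]; exact one_pos⟩

theorem MT_val {E : Finset (Sym2 V)} {A B S K : Finset V} (h : Two E A B S K)
    {Q : Finset (V × V)} (hQ : ∀ p ∈ Q, p.1 ∈ B ∧ p.2 ∈ A) :
    (C ((-1 : ℝ) ^ Q.card) * MT E Q).eval (-1) = (Zp E).eval (-1) * xx K.card Q ∧
      (derivative (C ((-1 : ℝ) ^ Q.card) * MT E Q)).eval (-1) =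
        (derivative (Zp E)).eval (-1) * xx K.card Q +
          (Zp E).eval (-1) * (xx K.card Q * hh K.card Q.card) := by
  by_cases hm : Mat Q
  · have h1 := MT_mat h Q hQ hm
    have h2 := congrArg (eval (-1)) h1
    have h3 := congrArg (fun p => (derivative p).eval (-1)) h1
    have e := dd_eval K.card Q.card
    have e' := dd_der K.card Q.card
    unfold dd at e e'
    rw [eval_mul, e] at h2
    simp only [derivative_mul, eval_add, eval_mul] at h3
    rw [e, e'] at h3
    have hf : ff K.card Q.card ≠ 0 := (ff_pos _ _).ne'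
    have hs : ((-1 : ℝ) ^ Q.card) * (-1) ^ Q.card = 1 := by
      rw [← mul_pow]; norm_num
    unfold xx
    rw [if_pos hm, eval_mul, eval_C, derivative_C_mul, eval_mul, eval_C]
    set s := (-1 : ℝ) ^ Q.card with hsd
    set f := ff K.card Q.card with hfd
    set M := (MT E Q).eval (-1) with hM
    set M' := (derivative (MT E Q)).eval (-1) with hM'
    rw [← h2, ← h3]
    constructor
    · field_simp
    · field_simp
      ring
  · rw [MT_not_mat h hQ hm]
    unfold xx
    rw [if_neg hm]
    simp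

/-- The logarithmic derivative for two cliques joined by the pairs `P`. -/
theorem ratio {E : Finset (Sym2 V)} {A B S K : Finset V} (h : Two E A B S K)
    (hE : ∀ s ∈ E, ¬ s.IsDiag)
    {P : Finset (V × V)} (hP : ∀ p ∈ P, p.1 ∈ B ∧ p.2 ∈ A) :
    (derivative (Zp (E ∪ eds P))).eval (-1) / (Zp (E ∪ eds P)).eval (-1) =
      (derivative (Zp E)).eval (-1) / (Zp E).eval (-1) +
        (∑ Q ∈ P.powerset, xx K.card Q * hh K.card Q.card) /
          (∑ Q ∈ P.powerset, xx K.card Q) := by
  have hd : Disjoint E (eds P) := by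
    rw [Finset.disjoint_left]
    intro s hs hs'
    unfold eds at hs'
    rw [Finset.mem_image] at hs'
    obtain ⟨p, hp, rfl⟩ := hs'
    have hK := h.sep _ _ hs (h.sub _ (hP p hp).1) (h.disj _ (hP p hp).2)
    exact hE _ (h.kA _ hK _ (hP p hp).2) (Sym2.mk_isDiag_iff.mpr rfl)
  have hinj : Set.InjOn (fun p : V × V => s(p.1, p.2)) P := by
    intro p hp q hq hpq
    rcases Sym2.eq_iff.mp hpq with h1 | h1
    · exact Prod.ext h1.1 h1.2
    · exact absurd (h.sub _ (h1.2 ▸ (hP q hq).1)) (h.disj _ (hP p hp).2)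
  have hQ : ∀ Q ∈ P.powerset, ∀ p ∈ Q, p.1 ∈ B ∧ p.2 ∈ A := fun Q hQ p hp =>
    hP p (Finset.mem_powerset.mp hQ hp)
  have e1 : (Zp (E ∪ eds P)).eval (-1) = (Zp E).eval (-1) * ∑ Q ∈ P.powerset, xx K.card Q := by
    rw [Zp_union hd hinj, eval_finsetSum, Finset.mul_sum]
    exact Finset.sum_congr rfl fun Q hQ' => (MT_val h (hQ Q hQ')).1
  have e2 : (derivative (Zp (E ∪ eds P))).eval (-1) =
      (derivative (Zp E)).eval (-1) * (∑ Q ∈ P.powerset, xx K.card Q) +
        (Zp E).eval (-1) * ∑ Q ∈ P.powerset, xx K.card Q * hh K.card Q.card := by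
    rw [Zp_union hd hinj, derivative_sum, eval_finsetSum, Finset.mul_sum, Finset.mul_sum,
      ← Finset.sum_add_distrib]
    exact Finset.sum_congr rfl fun Q hQ' => (MT_val h (hQ Q hQ')).2
  have hne : (Zp E).eval (-1) ≠ 0 := by
    intro h0
    have := Zp_pos hE
    rw [h0, mul_zero] at this
    exact lt_irrefl _ this
  have hne2 := (xx_pos K.card P).ne'
  rw [e1, e2]
  field_simp

/-- Deleting one of the pairs lowers the logarithmic derivative. -/
theorem good_cob {E : Finset (Sym2 V)} {A B S K : Finset V} (h : Two E A B S K)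
    (hE : ∀ s ∈ E, ¬ s.IsDiag)
    {P : Finset (V × V)} (hP : ∀ p ∈ P, p.1 ∈ B ∧ p.2 ∈ A) (hne : P.Nonempty) :
    ∃ p ∈ P, (derivative (Zp (E ∪ eds (P.erase p)))).eval (-1) /
        (Zp (E ∪ eds (P.erase p))).eval (-1) <
      (derivative (Zp (E ∪ eds P))).eval (-1) / (Zp (E ∪ eds P)).eval (-1) := by
  obtain ⟨p, hp, hlt⟩ := cheb hne (xx K.card) (hh K.card) (xx_nonneg _)
    (by rw [xx_empty]; exact one_pos)
    (fun p _ => xx_single _ _) (hh_strict _) (fun p _ => xx_pos _ _)
  refine ⟨p, hp, ?_⟩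
  rw [ratio h hE hP, ratio h hE fun q hq => hP q (Finset.mem_of_mem_erase hq)]
  linarith

end Pool.Agent.LCR
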