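import Pool.Agent.SCP.Fin

set_option autoImplicit false
set_option linter.unusedSectionVars false

/-!
# Dominated vertices without three pairwise nonadjacent neighbours
-/

namespace Pool.Agent.LCR

open Pool.Agent.BCF Pool.Agent.SCP

section abstract_sums

variable {V : Type} [DecidableEq V]

/-- The sets containing `u`. -/
theorem sum_mem {N : Finset V} {u : V} (hu : u ∈ N) (f : Finset V → ℝ) :
    ∑ S ∈ (N.erase u).powerset, f ({u} ∪ S) =
      ∑ T ∈ N.powerset, if u ∈ T then f T else 0 := by
  conv_rhs => rw [← Finset.insert_erase hu]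
  rw [Finset.sum_powerset_insert (Finset.notMem_erase u N)]
  have h1 : ∑ T ∈ (N.erase u).powerset, (if u ∈ T then f T else 0) = 0 := by
    refine Finset.sum_eq_zero fun T hT => ?_
    rw [if_neg]
    intro h
    exact Finset.notMem_erase u N (Finset.mem_powerset.mp hT h)
  rw [h1, zero_add]
  refine Finset.sum_congr rfl fun T _ => ?_
  rw [if_pos (Finset.mem_insert_self _ _), Finset.insert_eq]

theorem sum_notMem {N : Finset V} {u : V} (hu : u ∈ N) (f : Finset V → ℝ) :
    ∑ S ∈ (N.erase u).powerset, f S =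
      (∑ T ∈ N.powerset, f T) - ∑ S ∈ (N.erase u).powerset, f ({u} ∪ S) := by
  conv_rhs => rw [← Finset.insert_erase hu]
  rw [Finset.sum_powerset_insert (Finset.notMem_erase u N)]
  have h1 : (insert u (N.erase u)).erase u = N.erase u := by
    rw [Finset.insert_erase hu]
  rw [h1]
  have h2 : ∑ t ∈ (N.erase u).powerset, f (insert u t) =
      ∑ t ∈ (N.erase u).powerset, f ({u} ∪ t) :=
    Finset.sum_congr rfl fun S _ => by rw [Finset.insert_eq]
  rw [h2]
  ring

theorem sum_star (N : Finset V) (f : Finset V → ℝ) :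
    ∑ u ∈ N, ∑ S ∈ (N.erase u).powerset, f ({u} ∪ S) =
      ∑ T ∈ N.powerset, (T.card : ℝ) * f T := by
  rw [Finset.sum_congr rfl fun u hu => sum_mem hu f, Finset.sum_comm]
  refine Finset.sum_congr rfl fun T hT => ?_
  rw [Finset.sum_ite_mem, Finset.inter_eq_right.mpr (Finset.mem_powerset.mp hT),
    Finset.sum_const, nsmul_eq_mul]

theorem sum_small (N : Finset V) (f : Finset V → ℝ) (c1 : ℝ)
    (h1 : ∀ v ∈ N, f {v} = c1) (h3 : ∀ T ⊆ N, 3 ≤ T.card → f T = 0) :
    ∑ T ∈ N.powerset, (T.card : ℝ) * f T =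
      2 * ∑ T ∈ N.powerset, f T - 2 * f ∅ - N.card * c1 := by
  have h : ∀ T ∈ N.powerset, (T.card : ℝ) * f T =
      2 * f T - (if T = ∅ then 2 * f ∅ else 0) - (if T.card = 1 then c1 else 0) := by
    intro T hT
    rw [Finset.mem_powerset] at hT
    by_cases h0 : T = ∅
    · subst h0
      simp
    · rw [if_neg h0]
      by_cases h2 : T.card = 1
      · obtain ⟨v, rfl⟩ := Finset.card_eq_one.mp h2
        rw [if_pos h2, h1 v (by simpa using hT), Finset.card_singleton]
        ring
      · rw [if_neg h2]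
        by_cases h4 : T.card = 2
        · rw [h4]; push_cast; ring
        · have : 3 ≤ T.card := by
            have := Finset.card_pos.mpr (Finset.nonempty_iff_ne_empty.mpr h0)
            omega
          rw [h3 T hT this]
          ring
  rw [Finset.sum_congr rfl h, Finset.sum_sub_distrib, Finset.sum_sub_distrib, ← Finset.mul_sum,
    Finset.sum_ite_eq', if_pos (Finset.empty_mem_powerset _)]
  congr 1
  rw [← Finset.sum_filter, Finset.sum_const, nsmul_eq_mul]
  have h5 : (N.powerset.filter fun T => T.card = 1) = N.powersetCard 1 := by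
    ext T
    rw [Finset.mem_filter, Finset.mem_powerset, Finset.mem_powersetCard]
  rw [h5, Finset.card_powersetCard, Nat.choose_one_right]

/-- The identity `sum_v p_{wv} + (2 t + d) p_{wa} = 2` in terms of values and derivatives. -/
theorem key_dom {N : Finset V} {a : V} (ha : a ∈ N) (f g : Finset V → ℝ)
    (f0 : f ∅ = 1) (g0 : g ∅ = 0) (f1 : ∀ v ∈ N, f {v} = 1) (g1 : ∀ v ∈ N, g {v} = 0)
    (f3 : ∀ T ⊆ N, 3 ≤ T.card → f T = 0) (g3 : ∀ T ⊆ N, 3 ≤ T.card → g T = 0)
    (fn : ∀ T ⊆ N, 0 ≤ f T)
    (fa : ∀ T ⊆ N, a ∈ T → T ≠ {a} → f T = 0) (ga : ∀ T ⊆ N, a ∈ T → T ≠ {a} → g T = 0) :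
    ∃ u ∈ N, (∑ S ∈ (N.erase u).powerset, g ({u} ∪ S)) * (∑ S ∈ (N.erase u).powerset, f S) <
      (∑ S ∈ (N.erase u).powerset, f ({u} ∪ S)) * (1 + ∑ S ∈ (N.erase u).powerset, g S) := by
  by_contra hcon
  push Not at hcon
  set Z := ∑ T ∈ N.powerset, f T with hZ
  set Y := ∑ T ∈ N.powerset, g T with hY
  have h1 : ∀ u ∈ N, (∑ S ∈ (N.erase u).powerset, f ({u} ∪ S)) * (1 + Y) ≤
      (∑ S ∈ (N.erase u).powerset, g ({u} ∪ S)) * Z := by
    intro u hu
    have := hcon u hu
    rw [sum_notMem hu f, sum_notMem hu g, ← hZ, ← hY] at this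
    nlinarith [this]
  have h2 := Finset.sum_le_sum h1
  rw [← Finset.sum_mul, ← Finset.sum_mul, sum_star, sum_star, sum_small N f 1 f1 f3,
    sum_small N g 0 g1 g3, ← hZ, ← hY, f0, g0] at h2
  -- the vertex `a`
  have h3 := h1 a ha
  have ef : ∑ S ∈ (N.erase a).powerset, f ({a} ∪ S) = 1 := by
    rw [Finset.sum_eq_single ∅]
    · rw [Finset.union_empty]; exact f1 a ha
    · intro S hS hne
      rw [Finset.mem_powerset] at hS
      refine fa _ ?_ (by simp) ?_
      · intro x hx
        rw [Finset.mem_union, Finset.mem_singleton] at hx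
        rcases hx with rfl | hx
        · exact ha
        · exact Finset.mem_of_mem_erase (hS hx)
      · intro h
        apply hne
        rw [Finset.eq_empty_iff_forall_notMem]
        intro x hx
        have : x ∈ ({a} : Finset V) := by rw [← h]; exact Finset.mem_union_right _ hx
        rw [Finset.mem_singleton] at this
        exact Finset.notMem_erase a N (this ▸ hS hx)
    · intro h; exact absurd (Finset.empty_mem_powerset _) h
  have eg : ∑ S ∈ (N.erase a).powerset, g ({a} ∪ S) = 0 := by
    refine Finset.sum_eq_zero fun S hS => ?_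
    rw [Finset.mem_powerset] at hS
    by_cases hne : S = ∅
    · subst hne
      rw [Finset.union_empty]; exact g1 a ha
    · refine ga _ ?_ (by simp) ?_
      · intro x hx
        rw [Finset.mem_union, Finset.mem_singleton] at hx
        rcases hx with rfl | hx
        · exact ha
        · exact Finset.mem_of_mem_erase (hS hx)
      · intro h
        apply hne
        rw [Finset.eq_empty_iff_forall_notMem]
        intro x hx
        have : x ∈ ({a} : Finset V) := by rw [← h]; exact Finset.mem_union_right _ hx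
        rw [Finset.mem_singleton] at this
        exact Finset.notMem_erase a N (this ▸ hS hx)
  rw [ef, eg] at h3
  -- a lower bound of `Z`
  have h4 : (1 : ℝ) + N.card ≤ Z := by
    have e := sum_small N (fun T => if T.card ≤ 1 then f T else 0) 1
      (fun v hv => by simp only [Finset.card_singleton, le_refl, if_true]; exact f1 v hv)
      (fun T _ h => if_neg (by omega))
    have e2 : ∑ T ∈ N.powerset, (T.card : ℝ) * (if T.card ≤ 1 then f T else 0) = N.card := by
      have h : ∀ T ∈ N.powerset, (T.card : ℝ) * (if T.card ≤ 1 then f T else 0) =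
          if T.card = 1 then 1 else 0 := by
        intro T hT
        rw [Finset.mem_powerset] at hT
        by_cases h2 : T.card = 1
        · obtain ⟨v, rfl⟩ := Finset.card_eq_one.mp h2
          simp only [Finset.card_singleton, le_refl, if_true]
          rw [f1 v (by simpa using hT)]
          norm_num
        · rw [if_neg h2]
          by_cases h3 : T.card ≤ 1
          · have : T.card = 0 := by omega
            rw [this]; simp
          · rw [if_neg h3, mul_zero]
      rw [Finset.sum_congr rfl h, ← Finset.sum_filter, Finset.sum_const, nsmul_eq_mul, mul_one]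
      have h5 : (N.powerset.filter fun T => T.card = 1) = N.powersetCard 1 := by
        ext T
        rw [Finset.mem_filter, Finset.mem_powerset, Finset.mem_powersetCard]
      rw [h5, Finset.card_powersetCard, Nat.choose_one_right]
    rw [e2] at e
    simp only [Finset.card_empty, zero_le, if_true, f0] at e
    have e3 : ∑ T ∈ N.powerset, (if T.card ≤ 1 then f T else 0) ≤ Z := by
      rw [hZ]
      refine Finset.sum_le_sum fun T hT => ?_
      rw [Finset.mem_powerset] at hT
      split_ifs
      · exact le_refl _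
      · exact fn T hT
    linarith
  have h5 : (0 : ℝ) ≤ N.card := Nat.cast_nonneg _
  -- contradiction
  have h6 : 1 + Y ≤ 0 := by linarith
  have h7 : 2 * Z - 2 - N.card ≤ (2 + N.card) * Y := by nlinarith [h2]
  nlinarith

end abstract_sums

variable {V : Type} [Fintype V] [DecidableEq V] {G : SimpleGraph V} [DecidableRel G.Adj]

/-- Some edge at a dominated vertex is good. -/
theorem good_dominated {w a : V} (hwa : G.Adj w a)
    (hdom : ∀ u, G.Adj w u → u ≠ a → G.Adj a u)
    (hα : ∀ x y z, G.Adj w x → G.Adj w y → G.Adj w z → x ≠ y → x ≠ z → y ≠ z →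
      G.Adj x y ∨ G.Adj x z ∨ G.Adj y z) :
    ∃ u, G.Adj w u ∧ (∑ S ∈ ((nb G Finset.univ w).erase u).powerset,
          DD (EW G (Finset.univ.erase w)) ({u} ∪ S)) *
        (∑ S ∈ ((nb G Finset.univ w).erase u).powerset, FF (EW G (Finset.univ.erase w)) S) <
      (∑ S ∈ ((nb G Finset.univ w).erase u).powerset,
          FF (EW G (Finset.univ.erase w)) ({u} ∪ S)) *
        (1 + ∑ S ∈ ((nb G Finset.univ w).erase u).powerset,
          DD (EW G (Finset.univ.erase w)) S) := by
  have fd := fds G
  have hn : ∀ v, v ∈ nb G Finset.univ w ↔ G.Adj w v := by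
    intro v
    unfold nb
    rw [Finset.mem_filter]
    exact ⟨fun h => h.2, fun h => ⟨Finset.mem_univ _, h⟩⟩
  have hedge : ∀ T : Finset V, T ⊆ nb G Finset.univ w → (∃ x ∈ T, ∃ y ∈ T, G.Adj x y) →
      FF (EW G (Finset.univ.erase w)) T = 0 ∧ DD (EW G (Finset.univ.erase w)) T = 0 := by
    rintro T hT ⟨x, hx, y, hy, hxy⟩
    exact ⟨fd.F_edge (Finset.univ.erase w) T x y (hT.trans nb_sub) hx hy hxy,
      fd.D_edge (Finset.univ.erase w) T x y (hT.trans nb_sub) hx hy hxy⟩
  have h3 : ∀ T : Finset V, T ⊆ nb G Finset.univ w → 3 ≤ T.card →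
      ∃ x ∈ T, ∃ y ∈ T, G.Adj x y := by
    intro T hT hc
    obtain ⟨x, hx, y, hy, z, hz, hxy, hxz, hyz⟩ := Finset.two_lt_card.mp (by omega : 2 < T.card)
    rcases hα x y z ((hn x).mp (hT hx)) ((hn y).mp (hT hy)) ((hn z).mp (hT hz)) hxy hxz hyz
      with h | h | h
    · exact ⟨x, hx, y, hy, h⟩
    · exact ⟨x, hx, z, hz, h⟩
    · exact ⟨y, hy, z, hz, h⟩
  have ha : ∀ T : Finset V, T ⊆ nb G Finset.univ w → a ∈ T → T ≠ {a} →
      ∃ x ∈ T, ∃ y ∈ T, G.Adj x y := by
    intro T hT haT hne
    obtain ⟨y, hy, hya⟩ : ∃ y ∈ T, y ≠ a := by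
      by_contra h
      push Not at h
      exact hne (Finset.eq_singleton_iff_unique_mem.mpr ⟨haT, h⟩)
    exact ⟨a, haT, y, hy, hdom y ((hn y).mp (hT hy)) hya⟩
  obtain ⟨u, hu, h⟩ := key_dom (N := nb G Finset.univ w) ((hn a).mpr hwa)
    (FF (EW G (Finset.univ.erase w))) (DD (EW G (Finset.univ.erase w)))
    (fd.F_empty _) (fd.D_empty _) (fun v _ => fd.F_single _ v) (fun v _ => fd.D_single _ v)
    (fun T hT hc => (hedge T hT (h3 T hT hc)).1) (fun T hT hc => (hedge T hT (h3 T hT hc)).2)
    (fun T hT => fd.F_nonneg (Finset.univ.erase w) T (hT.trans nb_sub))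
    (fun T hT h1 h2 => (hedge T hT (ha T hT h1 h2)).1)
    (fun T hT h1 h2 => (hedge T hT (ha T hT h1 h2)).2)
  exact ⟨u, (hn u).mp hu, h⟩

end Pool.Agent.LCR
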