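import Pool.Agent.SCP.Pol

set_option autoImplicit false
set_option linter.unusedSectionVars false

/-!
# Expansion over the sets of identified pairs
-/

open Polynomial

namespace Pool.Agent.LCR

open Pool.Agent.BCF Pool.Agent.SCP

variable {V : Type} [Fintype V] [DecidableEq V]

/-- The edges given by a set of pairs. -/
def eds (P : Finset (V × V)) : Finset (Sym2 V) := P.image fun p => s(p.1, p.2)

/-- The indicator that all pairs of `P` are identified. -/
noncomputable def mo (P : Finset (V × V)) {k : ℕ} (σ : V → Fin k) : ℝ :=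
  if ∀ p ∈ P, σ p.1 = σ p.2 then 1 else 0

/-- The chromatic polynomial of `(V, E)` with the pairs of `P` identified. -/
noncomputable def MT (E : Finset (Sym2 V)) (P : Finset (V × V)) : ℝ[X] :=
  ∑ A ∈ E.powerset, C ((-1 : ℝ) ^ A.card) * X ^ nc (A ∪ eds P)

theorem ind_eq (F : Finset (Sym2 V)) {k : ℕ} (σ : V → Fin k) :
    ∏ s ∈ F, (if (s.map σ).IsDiag then (1 : ℝ) else 0) =
      if ∀ s ∈ F, (s.map σ).IsDiag then 1 else 0 := by
  by_cases h : ∀ s ∈ F, (s.map σ).IsDiag
  · rw [if_pos h]
    exact Finset.prod_eq_one fun s hs => if_pos (h s hs)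
  · rw [if_neg h]
    push Not at h
    obtain ⟨s, hs, hs'⟩ := h
    exact Finset.prod_eq_zero hs (if_neg hs')

theorem MT_eval (E : Finset (Sym2 V)) (P : Finset (V × V)) (k : ℕ) :
    (MT E P).eval (k : ℝ) = ∑ σ : V → Fin k, mo P σ * pr E σ := by
  classical
  have h1 : ∀ σ : V → Fin k, mo P σ * pr E σ =
      ∑ A ∈ E.powerset, (-1 : ℝ) ^ A.card *
        ∏ s ∈ A ∪ eds P, (if (s.map σ).IsDiag then (1 : ℝ) else 0) := by
    intro σ
    have e1 : ∀ s ∈ E, (if (s.map σ).IsDiag then (0 : ℝ) else 1) =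
        -(if (s.map σ).IsDiag then (1 : ℝ) else 0) + 1 := by
      intro s _
      split_ifs <;> simp
    unfold pr
    rw [Finset.prod_congr rfl e1, Finset.prod_add, Finset.mul_sum]
    refine Finset.sum_congr rfl fun A _ => ?_
    rw [Finset.prod_const_one, mul_one, Finset.prod_neg]
    have h3 : ∏ s ∈ A ∪ eds P, (if (s.map σ).IsDiag then (1 : ℝ) else 0) =
        (∏ s ∈ A, (if (s.map σ).IsDiag then (1 : ℝ) else 0)) * mo P σ := by
      rw [ind_eq, ind_eq]
      unfold mo
      have hP : (∀ s ∈ eds P, (s.map σ).IsDiag) ↔ ∀ p ∈ P, σ p.1 = σ p.2 := by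
        unfold eds
        constructor
        · intro h p hp
          have := h _ (Finset.mem_image_of_mem _ hp)
          simpa using this
        · intro h s hs
          rw [Finset.mem_image] at hs
          obtain ⟨p, hp, rfl⟩ := hs
          simpa using h p hp
      by_cases hA : ∀ s ∈ A, (s.map σ).IsDiag
      · rw [if_pos hA, one_mul]
        congr 1
        apply propext
        rw [← hP]
        constructor
        · intro h s hs
          exact h s (Finset.mem_union_right _ hs)
        · intro h s hs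
          rcases Finset.mem_union.mp hs with h' | h'
          · exact hA s h'
          · exact h s h'
      · rw [if_neg hA, zero_mul, if_neg]
        intro h
        exact hA fun s hs => h s (Finset.mem_union_left _ hs)
    rw [h3]
    ring
  rw [Finset.sum_congr rfl fun σ _ => h1 σ, Finset.sum_comm]
  unfold MT
  rw [eval_finsetSum]
  refine Finset.sum_congr rfl fun A _ => ?_
  rw [← Finset.mul_sum, count_const]
  simp

theorem MT_empty (E : Finset (Sym2 V)) : MT E ∅ = Zp E := by
  apply poly_ext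
  intro k
  rw [MT_eval, Zp_eval']
  refine Finset.sum_congr rfl fun σ _ => ?_
  unfold mo
  rw [if_pos (by simp), one_mul]

/-- The expansion over the added edges. -/
theorem Zp_union {E : Finset (Sym2 V)} {P : Finset (V × V)} (hd : Disjoint E (eds P))
    (hinj : Set.InjOn (fun p : V × V => s(p.1, p.2)) P) :
    Zp (E ∪ eds P) = ∑ Q ∈ P.powerset, C ((-1 : ℝ) ^ Q.card) * MT E Q := by
  apply poly_ext
  intro k
  rw [Zp_eval', eval_finsetSum]
  have h0 : ∀ Q ∈ P.powerset, (C ((-1 : ℝ) ^ Q.card) * MT E Q).eval (k : ℝ) =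
      ∑ σ : V → Fin k, (-1 : ℝ) ^ Q.card * (mo Q σ * pr E σ) := by
    intro Q _
    rw [eval_mul, eval_C, MT_eval, Finset.mul_sum]
  rw [Finset.sum_congr rfl h0, Finset.sum_comm]
  refine Finset.sum_congr rfl fun σ _ => ?_
  unfold pr
  rw [Finset.prod_union hd]
  have h1 : ∏ s ∈ eds P, (if (s.map σ).IsDiag then (0 : ℝ) else 1) =
      ∏ p ∈ P, (1 - if σ p.1 = σ p.2 then (1 : ℝ) else 0) := by
    unfold eds
    rw [Finset.prod_image hinj]
    refine Finset.prod_congr rfl fun p _ => ?_
    simp only [Sym2.map_mk, Sym2.mk_isDiag_iff]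
    split_ifs <;> ring
  have e1 : ∀ p ∈ P, (1 - if σ p.1 = σ p.2 then (1 : ℝ) else 0) =
      -(if σ p.1 = σ p.2 then (1 : ℝ) else 0) + 1 := by
    intro a _; ring
  rw [h1, Finset.prod_congr rfl e1, Finset.prod_add, Finset.mul_sum]
  refine Finset.sum_congr rfl fun Q _ => ?_
  rw [Finset.prod_const_one, mul_one, Finset.prod_neg]
  have h2 : ∏ p ∈ Q, (if σ p.1 = σ p.2 then (1 : ℝ) else 0) = mo Q σ := by
    unfold mo
    by_cases h : ∀ p ∈ Q, σ p.1 = σ p.2
    · rw [if_pos h]
      exact Finset.prod_eq_one fun a ha => if_pos (h a ha)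
    · rw [if_neg h]
      push Not at h
      obtain ⟨a, ha, ha'⟩ := h
      exact Finset.prod_eq_zero ha (if_neg ha')
  rw [h2]
  ring

/-- The cliques `A`, `B` and `K`, with `B` inside `S` and `A`, `K` outside `S`, all vertices of `K`
joined to those of `A` and `B`; the edges of `E` leaving `S` end in `K`. -/
structure Two (E : Finset (Sym2 V)) (A B S K : Finset V) : Prop where
  disj : ∀ a ∈ A, a ∉ S
  sub : ∀ b ∈ B, b ∈ S
  kS : ∀ x ∈ K, x ∉ S
  cA : ∀ a ∈ A, ∀ a' ∈ A, a ≠ a' → s(a, a') ∈ E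
  cB : ∀ b ∈ B, ∀ b' ∈ B, b ≠ b' → s(b, b') ∈ E
  cK : ∀ x ∈ K, ∀ y ∈ K, x ≠ y → s(x, y) ∈ E
  kA : ∀ x ∈ K, ∀ a ∈ A, s(x, a) ∈ E
  kB : ∀ x ∈ K, ∀ b ∈ B, s(x, b) ∈ E
  sep : ∀ x y, s(x, y) ∈ E → x ∈ S → y ∉ S → y ∈ K

/-- The pairs are disjoint. -/
def Mat (P : Finset (V × V)) : Prop := ∀ p ∈ P, ∀ q ∈ P, p ≠ q → p.1 ≠ q.1 ∧ p.2 ≠ q.2

theorem pr_zero {E : Finset (Sym2 V)} {x y : V} (h : s(x, y) ∈ E) {k : ℕ} {σ : V → Fin k}
    (hσ : σ x = σ y) : pr E σ = 0 := by
  unfold pr
  refine Finset.prod_eq_zero h ?_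
  rw [if_pos]
  simpa using hσ

theorem MT_not_mat {E : Finset (Sym2 V)} {A B S K : Finset V} (h : Two E A B S K)
    {P : Finset (V × V)} (hP : ∀ p ∈ P, p.1 ∈ B ∧ p.2 ∈ A) (hm : ¬ Mat P) : MT E P = 0 := by
  apply poly_ext
  intro k
  rw [MT_eval, eval_zero]
  refine Finset.sum_eq_zero fun σ _ => ?_
  unfold mo
  by_cases hmo : ∀ p ∈ P, σ p.1 = σ p.2
  · unfold Mat at hm
    push Not at hm
    obtain ⟨p, hp, q, hq, hpq, hm⟩ := hm
    by_cases h1 : p.1 = q.1
    · have h2 : p.2 ≠ q.2 := fun h2 => hpq (Prod.ext h1 h2)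
      rw [pr_zero (h.cA _ (hP p hp).2 _ (hP q hq).2 h2), mul_zero]
      rw [← hmo p hp, ← hmo q hq, h1]
    · have h2 := hm h1
      rw [pr_zero (h.cB _ (hP p hp).1 _ (hP q hq).1 h1), mul_zero]
      rw [hmo p hp, hmo q hq, h2]
  · rw [if_neg hmo, zero_mul]

/-- Recolouring of `S` by the transposition of `c` and the colour of `a`. -/
def TT (S : Finset V) (a : V) {k : ℕ} (c : Fin k) (σ : V → Fin k) : V → Fin k :=
  fun v => if v ∈ S then Equiv.swap c (σ a) (σ v) else σ v

theorem TT_a {S : Finset V} {a : V} (ha : a ∉ S) {k : ℕ} (c : Fin k) (σ : V → Fin k) :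
    TT S a c σ a = σ a := if_neg ha

theorem TT_TT {S : Finset V} {a : V} (ha : a ∉ S) {k : ℕ} (c : Fin k) (σ : V → Fin k) :
    TT S a c (TT S a c σ) = σ := by
  funext v
  have h := TT_a ha c σ
  by_cases hv : v ∈ S
  · have e1 : TT S a c (TT S a c σ) v =
        Equiv.swap c (TT S a c σ a) (TT S a c σ v) := if_pos hv
    have e2 : TT S a c σ v = Equiv.swap c (σ a) (σ v) := if_pos hv
    rw [e1, h, e2, Equiv.swap_apply_self]
  · have e1 : TT S a c (TT S a c σ) v = TT S a c σ v := if_neg hv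
    have e2 : TT S a c σ v = σ v := if_neg hv
    rw [e1, e2]

theorem pr_TT {E : Finset (Sym2 V)} {A B S K : Finset V} (h : Two E A B S K) (a : V) {k : ℕ}
    (c : Fin k) (σ : V → Fin k) (h1 : ∀ y ∈ K, σ y ≠ c) (h2 : ∀ y ∈ K, σ y ≠ σ a) :
    pr E (TT S a c σ) = pr E σ := by
  unfold pr
  refine Finset.prod_congr rfl fun s hs => ?_
  have key : ∀ x y, s(x, y) ∈ E → x ∈ S →
      (TT S a c σ x = TT S a c σ y ↔ σ x = σ y) := by
    intro x y hxy hx
    unfold TT
    rw [if_pos hx]
    by_cases hy : y ∈ S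
    · rw [if_pos hy]
      exact (Equiv.swap c (σ a)).injective.eq_iff
    · rw [if_neg hy]
      have hK := h.sep x y hxy hx hy
      have h3 : Equiv.swap c (σ a) (σ y) = σ y :=
        Equiv.swap_apply_of_ne_of_ne (h1 y hK) (h2 y hK)
      constructor
      · intro h4
        rw [← h3] at h4
        exact (Equiv.swap c (σ a)).injective h4
      · intro h4
        rw [h4, h3]
  induction s using Sym2.ind with
  | _ x y =>
    have h2 : ((s(x, y)).map (TT S a c σ)).IsDiag ↔ ((s(x, y)).map σ).IsDiag := by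
      simp only [Sym2.map_mk, Sym2.mk_isDiag_iff]
      by_cases hx : x ∈ S
      · exact key x y hs hx
      · by_cases hy : y ∈ S
        · rw [eq_comm, @eq_comm _ (σ x)]
          exact key y x (by rw [Sym2.eq_swap]; exact hs) hy
        · unfold TT
          rw [if_neg hx, if_neg hy]
    by_cases h3 : ((s(x, y)).map σ).IsDiag
    · rw [if_pos h3, if_pos (h2.mpr h3)]
    · rw [if_neg h3, if_neg fun h4 => h3 (h2.mp h4)]

/-- Adding one pair to a matching. -/
theorem MT_step {E : Finset (Sym2 V)} {A B S K : Finset V} (h : Two E A B S K)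
    {P : Finset (V × V)} (hP : ∀ p ∈ P, p.1 ∈ B ∧ p.2 ∈ A) (hm : Mat P) {b a : V}
    (hb : b ∈ B) (ha : a ∈ A) (h1 : ∀ p ∈ P, b ≠ p.1) (h2 : ∀ p ∈ P, a ≠ p.2) :
    (X - C ((K.card : ℝ) + P.card)) * MT E (insert (b, a) P) = MT E P := by
  have haB : a ∉ S := h.disj a ha
  apply poly_ext
  intro k
  rw [eval_mul, eval_sub, eval_X, eval_C, MT_eval, MT_eval]
  have hins : ∀ σ : V → Fin k, mo (insert (b, a) P) σ =
      (if σ b = σ a then 1 else 0) * mo P σ := by
    intro σ
    unfold mo
    by_cases h3 : σ b = σ a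
    · rw [if_pos h3, one_mul]
      congr 1
      apply propext
      rw [Finset.forall_mem_insert]
      exact ⟨fun h => h.2, fun h => ⟨h3, h⟩⟩
    · rw [if_neg h3, zero_mul, if_neg]
      intro h
      exact h3 (h (b, a) (Finset.mem_insert_self _ _))
  -- the sum over the colour of `b`
  have hc : ∑ σ : V → Fin k, mo P σ * pr E σ =
      ∑ c : Fin k, ∑ σ : V → Fin k, (if σ b = c then 1 else 0) * (mo P σ * pr E σ) := by
    rw [Finset.sum_comm]
    refine Finset.sum_congr rfl fun σ _ => ?_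
    rw [← Finset.sum_mul, Finset.sum_ite_eq, if_pos (Finset.mem_univ _), one_mul]
  have key : ∀ (c : Fin k) (τ : V → Fin k),
      (if TT S a c τ b = c then (1 : ℝ) else 0) * (mo P (TT S a c τ) * pr E (TT S a c τ)) =
        (if c ∉ P.image (fun p => τ p.2) ∪ K.image τ then (1 : ℝ) else 0) *
          ((if τ b = τ a then 1 else 0) * mo P τ * pr E τ) := by
    intro c τ
    have hKT : ∀ y ∈ K, TT S a c τ y = τ y := fun y hy => if_neg (h.kS y hy)
    by_cases hK1 : ∃ y ∈ K, τ y = τ a
    · obtain ⟨y, hy, hya⟩ := hK1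
      rw [pr_zero (h.kA y hy a ha) hya,
        pr_zero (σ := TT S a c τ) (h.kA y hy a ha) (by rw [hKT y hy, TT_a haB, hya])]
      ring
    by_cases hK2 : ∃ y ∈ K, τ y = c
    · obtain ⟨y, hy, hyc⟩ := hK2
      rw [if_neg (c := c ∉ P.image (fun p => τ p.2) ∪ K.image τ)
        (not_not.mpr (Finset.mem_union_right _ (Finset.mem_image.mpr ⟨y, hy, hyc⟩))), zero_mul]
      by_cases hbc : TT S a c τ b = c
      · rw [pr_zero (σ := TT S a c τ) (h.kB y hy b hb) (by rw [hKT y hy, hbc, hyc])]
        ring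
      · rw [if_neg hbc, zero_mul]
    push Not at hK1 hK2
    have hprT := pr_TT h a c τ hK2 hK1
    rw [hprT]
    by_cases hpr : pr E τ = 0
    · rw [hpr]; ring
    have hTb : TT S a c τ b = c ↔ τ b = τ a := by
      unfold TT
      rw [if_pos (h.sub b hb)]
      constructor
      · intro h4
        have := congrArg (Equiv.swap c (τ a)) h4
        rwa [Equiv.swap_apply_self, Equiv.swap_apply_left] at this
      · intro h4
        rw [h4, Equiv.swap_apply_right]
    have hcK : c ∉ K.image τ := by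
      intro hc'
      rw [Finset.mem_image] at hc'
      obtain ⟨y, hy, hyc⟩ := hc'
      exact hK2 y hy hyc
    by_cases hba : τ b = τ a
    · rw [if_pos (hTb.mpr hba), if_pos hba, one_mul, one_mul]
      have hTp : ∀ p ∈ P, TT S a c τ p.2 = τ p.2 := fun p hp => if_neg (h.disj _ (hP p hp).2)
      by_cases hcol : c ∈ P.image fun p => τ p.2
      · rw [if_neg (not_not.mpr (Finset.mem_union_left _ hcol)), zero_mul]
        rw [Finset.mem_image] at hcol
        obtain ⟨p, hp, hpc⟩ := hcol
        have : mo P (TT S a c τ) = 0 := by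
          unfold mo
          rw [if_neg]
          intro h5
          have h6 := h5 p hp
          rw [hTp p hp, hpc] at h6
          have h7 : TT S a c τ b = TT S a c τ p.1 := by rw [hTb.mpr hba, h6]
          have h8 := pr_zero (h.cB b hb p.1 (hP p hp).1 (h1 p hp)) h7
          rw [hprT] at h8
          exact hpr h8
        rw [this, zero_mul]
      · have hcu : c ∉ P.image (fun p => τ p.2) ∪ K.image τ := by
          rw [Finset.mem_union]
          rintro (h5 | h5)
          · exact hcol h5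
          · exact hcK h5
        rw [if_pos hcu, one_mul]
        congr 1
        unfold mo
        congr 1
        apply propext
        refine forall₂_congr fun p hp => ?_
        rw [hTp p hp]
        have h5 : τ p.2 ≠ c := fun h => hcol (Finset.mem_image.mpr ⟨p, hp, h⟩)
        have h6 : τ p.2 ≠ τ a := by
          intro h7
          exact hpr (pr_zero (h.cA a ha p.2 (hP p hp).2 (h2 p hp)) h7.symm)
        have e2 : TT S a c τ p.1 = Equiv.swap c (τ a) (τ p.1) := if_pos (h.sub _ (hP p hp).1)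
        rw [e2]
        constructor
        · intro h7
          have := congrArg (Equiv.swap c (τ a)) h7
          rwa [Equiv.swap_apply_self, Equiv.swap_apply_of_ne_of_ne h5 h6] at this
        · intro h7
          rw [h7, Equiv.swap_apply_of_ne_of_ne h5 h6]
    · rw [if_neg fun h => hba (hTb.mp h), if_neg hba]
      ring
  have hre : ∀ c : Fin k, ∑ σ : V → Fin k, (if σ b = c then 1 else 0) * (mo P σ * pr E σ) =
      ∑ τ : V → Fin k, (if c ∉ P.image (fun p => τ p.2) ∪ K.image τ then (1 : ℝ) else 0) *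
          ((if τ b = τ a then 1 else 0) * mo P τ * pr E τ) := by
    intro c
    rw [← Finset.sum_congr rfl fun τ _ => key c τ]
    let e : (V → Fin k) ≃ (V → Fin k) :=
      ⟨TT S a c, TT S a c, TT_TT haB c, TT_TT haB c⟩
    exact (Equiv.sum_comp e fun σ : V → Fin k =>
      (if σ b = c then (1 : ℝ) else 0) * (mo P σ * pr E σ)).symm
  rw [hc, Finset.sum_congr rfl fun c _ => hre c, Finset.sum_comm, Finset.mul_sum]
  refine Finset.sum_congr rfl fun τ _ => ?_
  rw [← Finset.sum_mul, hins]
  by_cases hpr : pr E τ = 0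
  · rw [hpr]; ring
  congr 1
  rw [Finset.sum_ite, Finset.sum_const_zero, add_zero, Finset.sum_const, nsmul_eq_mul, mul_one]
  have h5 : (Finset.univ.filter fun c : Fin k => c ∉ P.image (fun p => τ p.2) ∪ K.image τ) =
      Finset.univ \ (P.image (fun p => τ p.2) ∪ K.image τ) := by
    ext c; simp
  have h6 : (P.image fun p => τ p.2).card = P.card := by
    apply Finset.card_image_of_injOn
    intro p hp q hq hpq
    by_contra hne
    exact hpr (pr_zero (h.cA _ (hP p hp).2 _ (hP q hq).2 (hm p hp q hq hne).2) hpq)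
  have h7 : (K.image τ).card = K.card := by
    apply Finset.card_image_of_injOn
    intro x hx y hy hxy
    by_contra hne
    exact hpr (pr_zero (h.cK _ hx _ hy hne) hxy)
  have h8 : Disjoint (P.image fun p => τ p.2) (K.image τ) := by
    rw [Finset.disjoint_left]
    intro c hc1 hc2
    rw [Finset.mem_image] at hc1 hc2
    obtain ⟨p, hp, hpc⟩ := hc1
    obtain ⟨y, hy, hyc⟩ := hc2
    exact hpr (pr_zero (h.kA y hy _ (hP p hp).2) (hyc.trans hpc.symm))
  have h9 : (P.image (fun p => τ p.2) ∪ K.image τ).card = P.card + K.card := by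
    rw [Finset.card_union_of_disjoint h8, h6, h7]
  rw [h5, Finset.card_sdiff_of_subset (Finset.subset_univ _), h9, Finset.card_univ,
    Fintype.card_fin, Nat.cast_sub]
  · push_cast
    ring
  rw [← h9]
  calc _ ≤ (Finset.univ : Finset (Fin k)).card := Finset.card_le_card (Finset.subset_univ _)
    _ = k := by rw [Finset.card_univ, Fintype.card_fin]

/-- The polynomial of a matching. -/
theorem MT_mat {E : Finset (Sym2 V)} {A B S K : Finset V} (h : Two E A B S K)
    (P : Finset (V × V)) (hP : ∀ p ∈ P, p.1 ∈ B ∧ p.2 ∈ A) (hm : Mat P) :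
    (∏ i ∈ Finset.range P.card, (X - C ((K.card : ℝ) + i))) * MT E P = Zp E := by
  induction P using Finset.induction_on with
  | empty => simp [MT_empty]
  | insert p P hp ih =>
    have hP' : ∀ q ∈ P, q.1 ∈ B ∧ q.2 ∈ A := fun q hq => hP q (Finset.mem_insert_of_mem hq)
    have hm' : Mat P := fun q hq r hr =>
      hm q (Finset.mem_insert_of_mem hq) r (Finset.mem_insert_of_mem hr)
    rw [Finset.card_insert_of_notMem hp, Finset.prod_range_succ, mul_assoc]
    have hne : ∀ q ∈ P, p.1 ≠ q.1 ∧ p.2 ≠ q.2 := fun q hq =>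
      hm p (Finset.mem_insert_self _ _) q (Finset.mem_insert_of_mem hq) fun h =>
        hp (h ▸ hq)
    have h3 := MT_step h hP' hm' (hP p (Finset.mem_insert_self _ _)).1
      (hP p (Finset.mem_insert_self _ _)).2 (fun q hq => (hne q hq).1) fun q hq => (hne q hq).2
    rw [Prod.mk.eta] at h3
    rw [h3]
    exact ih hP' hm'

end Pool.Agent.LCR
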